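import Pool.Agent.Gru.HF

/-!
Closed sequences give Hamiltonian cycles (relational form and proof pattern of helper19).
-/

set_option autoImplicit false

namespace Pool.Agent.H58Ed

open SimpleGraph Pool.Agent.Gru

/-- the relational form of a periodic sequence -/
theorem HF_of_per {V : Type*} (G : SimpleGraph V) (al : V → Prop) (m : ℕ) (f : ℕ → V)
    (h3 : 3 ≤ m) (hper : ∀ i, f (i + m) = f i) (hadj : ∀ i, G.Adj (f i) (f (i + 1)))
    (hinj : ∀ i j, i < m → j < m → f i = f j → i = j)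
    (hal : ∀ v, al v ↔ ∃ i, f i = v) :
    HF G al (fun u v => ∃ i, (u = f i ∧ v = f (i + 1)) ∨ (v = f i ∧ u = f (i + 1))) := by
  have hmod : ∀ i, f (i % m) = f i := fun i =>
    Function.Periodic.map_mod_nat (show Function.Periodic f m from hper) i
  have hinj' : ∀ {i j : ℕ}, f i = f j → i ≡ j [MOD m] := by
    intro i j hij
    have h1 : f (i % m) = f (j % m) := by rw [hmod, hmod, hij]
    exact hinj _ _ (Nat.mod_lt _ (by omega)) (Nat.mod_lt _ (by omega)) h1
  have hcongr : ∀ {i j : ℕ}, i ≡ j [MOD m] → f i = f j := by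
    intro i j hij
    rw [← hmod i, ← hmod j, hij]
  refine ⟨?_, ?_, ?_, ?_, ?_⟩
  · rintro u v ⟨i, ⟨rfl, rfl⟩ | ⟨rfl, rfl⟩⟩
    · exact hadj i
    · exact (hadj i).symm
  · rintro u v ⟨i, h1 | h1⟩
    · exact ⟨i, Or.inr h1⟩
    · exact ⟨i, Or.inl h1⟩
  · rintro u v ⟨i, ⟨rfl, rfl⟩ | ⟨rfl, rfl⟩⟩
    · exact (hal _).2 ⟨i, rfl⟩
    · exact (hal _).2 ⟨i + 1, rfl⟩
  · intro u hu
    obtain ⟨i, rfl⟩ := (hal u).1 hu
    obtain ⟨k, hk⟩ : ∃ k, f (k + 1) = f i := ⟨i + m - 1, by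
      have : i + m - 1 + 1 = i + m := by omega
      rw [this, hper]⟩
    have hset : {v | ∃ j, (f i = f j ∧ v = f (j + 1)) ∨ (v = f j ∧ f i = f (j + 1))}
        = {f k, f (k + 2)} := by
      ext v
      constructor
      · rintro ⟨j, ⟨h1, h2⟩ | ⟨h1, h2⟩⟩
        · right
          rw [h2]
          show f (j + 1) = f (k + 2)
          exact hcongr ((hinj' (show f j = f (k + 1) by rw [← h1, hk])).add_right 1)
        · left
          rw [h1]
          exact hcongr (Nat.ModEq.add_right_cancel' 1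
            (hinj' (show f (j + 1) = f (k + 1) by rw [← h2, hk])))
      · rintro (h1 | h1)
        · exact ⟨k, Or.inr ⟨h1, hk.symm⟩⟩
        · exact ⟨k + 1, Or.inl ⟨hk.symm, h1⟩⟩
    have hne2 : f k ≠ f (k + 2) := by
      intro h1
      have h2 := hinj' h1
      have h3' := (Nat.modEq_iff_dvd' (by omega)).1 h2
      have h4 : m ∣ 2 := by simpa using h3'
      have := Nat.le_of_dvd two_pos h4
      omega
    rw [hset, Set.ncard_pair hne2]
  · intro W hW
    have h1 : ∀ i, W (f i) ↔ W (f 0) := by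
      intro i
      induction i with
      | zero => exact Iff.rfl
      | succ i ih => exact (hW _ _ ⟨i, Or.inr ⟨rfl, rfl⟩⟩).trans ih
    intro u v hu hv
    obtain ⟨i, rfl⟩ := (hal u).1 hu
    obtain ⟨j, rfl⟩ := (hal v).1 hv
    exact (h1 i).trans (h1 j).symm

theorem HF_of_seq {V : Type*} (G : SimpleGraph V) (al : V → Prop) (k : ℕ) (g : ℕ → V)
    (hk : 3 ≤ k)
    (hadj : ∀ i, i + 1 < k → G.Adj (g i) (g (i + 1))) (hlast : G.Adj (g (k - 1)) (g 0))
    (hinj : ∀ i j, i < k → j < k → g i = g j → i = j)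
    (hal : ∀ v, al v ↔ ∃ i, i < k ∧ g i = v) :
    ∃ F, HF G al F := by
  refine ⟨_, HF_of_per G al k (fun i => g (i % k)) hk ?_ ?_ ?_ ?_⟩
  · intro i
    simp
  · intro i
    show G.Adj (g (i % k)) (g ((i + 1) % k))
    have hlt : i % k < k := Nat.mod_lt _ (by omega)
    rcases Nat.lt_or_ge (i % k + 1) k with h | h
    · rw [Nat.add_mod i 1 k, Nat.mod_eq_of_lt (show 1 < k by omega), Nat.mod_eq_of_lt h]
      exact hadj _ h
    · have h' : i % k + 1 = k := by omega
      rw [Nat.add_mod i 1 k, Nat.mod_eq_of_lt (show 1 < k by omega), h', Nat.mod_self]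
      rw [show i % k = k - 1 by omega]
      exact hlast
  · intro i j hi hj hij
    have hij' : g (i % k) = g (j % k) := hij
    rw [Nat.mod_eq_of_lt hi, Nat.mod_eq_of_lt hj] at hij'
    exact hinj i j hi hj hij'
  · intro v
    rw [hal]
    constructor
    · rintro ⟨i, hi, hiv⟩
      exact ⟨i, by show g (i % k) = v; rw [Nat.mod_eq_of_lt hi, hiv]⟩
    · rintro ⟨i, hiv⟩
      exact ⟨i % k, Nat.mod_lt _ (by omega), hiv⟩

theorem ham_induce_of_seq {V : Type*} [Finite V] [DecidableEq V] (G : SimpleGraph V) (S : Set V)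
    (k : ℕ) (g : ℕ → V) (hk : 3 ≤ k)
    (hadj : ∀ i, i + 1 < k → G.Adj (g i) (g (i + 1))) (hlast : G.Adj (g (k - 1)) (g 0))
    (hinj : ∀ i j, i < k → j < k → g i = g j → i = j) (hmem : ∀ i, i < k → g i ∈ S)
    (hsurj : ∀ v ∈ S, ∃ i, i < k ∧ g i = v) :
    ∃ a : ↥S, ∃ p : (G.induce S).Walk a a, p.IsHamiltonianCycle := by
  have hal : ∀ v, v ∈ S ↔ ∃ i, i < k ∧ g i = v := by
    intro v
    constructor
    · exact hsurj v
    · rintro ⟨i, hi, rfl⟩
      exact hmem i hi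
  obtain ⟨F, hF⟩ := HF_of_seq G (fun v => v ∈ S) k g hk hadj hlast hinj hal
  have : Nonempty ↥S := ⟨⟨g 0, hmem 0 (by omega)⟩⟩
  exact ham_of_HF (G.induce S) G Subtype.val Subtype.val_injective (fun a b h => h)
    (fun v => v ∈ S) (fun v => by simp) F hF

theorem ham_of_seq {V : Type*} [Finite V] [DecidableEq V] (G : SimpleGraph V)
    (k : ℕ) (g : ℕ → V) (hk : 3 ≤ k)
    (hadj : ∀ i, i + 1 < k → G.Adj (g i) (g (i + 1))) (hlast : G.Adj (g (k - 1)) (g 0))
    (hinj : ∀ i j, i < k → j < k → g i = g j → i = j)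
    (hsurj : ∀ v, ∃ i, i < k ∧ g i = v) :
    ∃ a : V, ∃ p : G.Walk a a, p.IsHamiltonianCycle := by
  obtain ⟨F, hF⟩ := HF_of_seq G (fun _ => True) k g hk hadj hlast hinj
    (fun v => ⟨fun _ => hsurj v, fun _ => trivial⟩)
  have : Nonempty V := ⟨g 0⟩
  exact ham_of_HF G G id Function.injective_id (fun a b h => h)
    (fun _ => True) (fun v => ⟨fun _ => ⟨v, rfl⟩, fun _ => trivial⟩) F hF

end Pool.Agent.H58Ed
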