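import Mathlib

/-!
Counting in `ZMod m`.
-/

set_option autoImplicit false

namespace Pool.Agent.H58Ed

open Finset

theorem exists_end {m : ℕ} [NeZero m] (A B : Finset (ZMod m))
    (hAB1 : ∀ i, i ∈ A → i + 1 ∉ B) (hAB2 : ∀ i, i ∈ A → i + 2 ∉ B)
    (hA : ∃ i, i ∈ A ∧ i ∉ B) (hB : ∃ i, i ∈ B) :
    ∃ t, t ∈ A ∧ t ∉ B ∧ t + 2 ∉ A ∧ t + 2 ∉ B := by
  by_contra hcon
  push Not at hcon
  obtain ⟨t0, h0A, h0B⟩ := hA
  obtain ⟨b, hb⟩ := hB
  have hall : ∀ j : ℕ, t0 + 2 * (j : ZMod m) ∈ A ∧ t0 + 2 * (j : ZMod m) ∉ B := by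
    intro j
    induction j with
    | zero => simpa using ⟨h0A, h0B⟩
    | succ j ih =>
      have e : t0 + 2 * ((j + 1 : ℕ) : ZMod m) = t0 + 2 * (j : ZMod m) + 2 := by
        push_cast
        ring
      rw [e]
      by_cases h : t0 + 2 * (j : ZMod m) + 2 ∈ A
      · exact ⟨h, hAB2 _ ih.1⟩
      · exact absurd (hcon _ ih.1 ih.2 h) (hAB2 _ ih.1)
  have hr : b = t0 + (((b - t0).val : ℕ) : ZMod m) := by
    rw [ZMod.natCast_zmod_val]
    ring
  rcases Nat.even_or_odd' (b - t0).val with ⟨j, hj | hj⟩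
  · rw [hj] at hr
    push_cast at hr
    exact (hall j).2 (hr ▸ hb)
  · rw [hj] at hr
    push_cast at hr
    rw [← add_assoc] at hr
    exact hAB1 _ (hall j).1 (hr ▸ hb)

theorem count {m : ℕ} [NeZero m] (A B : Finset (ZMod m)) (hAA : ∀ i, i ∈ A → i + 1 ∉ A)
    (hBB : ∀ i, i ∈ B → i + 1 ∉ B) (hAB1 : ∀ i, i ∈ A → i + 1 ∉ B)
    (hBA1 : ∀ i, i ∈ B → i + 1 ∉ A) (hAB2 : ∀ i, i ∈ A → i + 2 ∉ B)
    (hBA2 : ∀ i, i ∈ B → i + 2 ∉ A) (hA : ∃ i, i ∈ A ∧ i ∉ B) (hB : ∃ i, i ∈ B ∧ i ∉ A) :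
    2 * A.card + 2 * B.card + 2 ≤ m + (A ∩ B).card := by
  classical
  obtain ⟨t, htA, htB, htA2, htB2⟩ := exists_end A B hAB1 hAB2 hA
    (by obtain ⟨i, hi, -⟩ := hB; exact ⟨i, hi⟩)
  obtain ⟨s, hsB, hsA, hsB2, hsA2⟩ := exists_end B A hBA1 hBA2 hB
    (by obtain ⟨i, hi, -⟩ := hA; exact ⟨i, hi⟩)
  have hUU : ∀ i, i ∈ A ∪ B → i + 1 ∉ A ∪ B := by
    intro i hi hi'
    rw [mem_union] at hi hi'
    rcases hi with hi | hi <;> rcases hi' with hi' | hi'
    · exact hAA i hi hi'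
    · exact hAB1 i hi hi'
    · exact hBA1 i hi hi'
    · exact hBB i hi hi'
  let E : Finset (ZMod m) := insert t (insert s (A ∩ B))
  have hEU : ∀ e, e ∈ E → e ∈ A ∪ B ∧ e + 2 ∉ A ∪ B := by
    intro e he
    simp only [E, mem_insert, mem_inter] at he
    rw [mem_union, mem_union]
    rcases he with rfl | rfl | ⟨h1, h2⟩
    · exact ⟨Or.inl htA, by tauto⟩
    · exact ⟨Or.inr hsB, by tauto⟩
    · exact ⟨Or.inl h1, by
        rintro (h | h)
        · exact hBA2 e h2 h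
        · exact hAB2 e h1 h⟩
  have hts : t ≠ s := fun h => htB (h ▸ hsB)
  have hEcard : E.card = (A ∩ B).card + 2 := by
    have h1 : s ∉ A ∩ B := fun h => hsA (mem_inter.1 h).1
    have h2 : t ∉ insert s (A ∩ B) := by
      rw [mem_insert, mem_inter]
      rintro (h | h)
      · exact hts h
      · exact htB h.2
    rw [card_insert_of_notMem h2, card_insert_of_notMem h1]
  have inj1 : Function.Injective (fun i : ZMod m => i + 1) := add_left_injective 1
  have inj2 : Function.Injective (fun i : ZMod m => i + 2) := add_left_injective 2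
  have d1 : Disjoint (A ∪ B) ((A ∪ B).image (fun i => i + 1)) := by
    rw [disjoint_left]
    intro i hi hi'
    obtain ⟨j, hj, rfl⟩ := mem_image.1 hi'
    exact hUU j hj hi
  have d2 : Disjoint ((A ∪ B) ∪ ((A ∪ B).image (fun i => i + 1))) (E.image (fun i => i + 2)) := by
    rw [disjoint_left]
    intro i hi hi'
    obtain ⟨e, he, rfl⟩ := mem_image.1 hi'
    rcases mem_union.1 hi with h | h
    · exact (hEU e he).2 h
    · obtain ⟨j, hj, hj'⟩ := mem_image.1 h
      have hje : j = e + 1 := by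
        have h3 : j + 1 = e + 2 := hj'
        linear_combination h3
      rw [hje] at hj
      exact hUU e (hEU e he).1 hj
  have hcard := card_le_univ
    (((A ∪ B) ∪ ((A ∪ B).image (fun i => i + 1))) ∪ (E.image (fun i => i + 2)))
  rw [card_union_of_disjoint d2, card_union_of_disjoint d1, card_image_of_injective _ inj1,
    card_image_of_injective _ inj2, hEcard, ZMod.card] at hcard
  have h4 := card_union_add_card_inter A B
  omega

end Pool.Agent.H58Ed
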