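import Pool.Agent.H58Ed.Main

/-!
Nonadjacent pairs: the crossing move, and the global edge bound.
-/

set_option autoImplicit false

namespace Pool.Agent.H58Ed

open SimpleGraph Finset

section cross

variable {V : Type*} [Finite V] [DecidableEq V] {G : SimpleGraph V} {m : ℕ} {f : ℕ → V}

/-- `f 0, …, f s, x, f (m-1), …, f (s+1), y` closes to a Hamiltonian cycle. -/
theorem cross0 {x y : V} (hne : x ≠ y) (h : Cyc G ({x, y}ᶜ : Set V) m f) (s : ℕ)
    (hs : s + 1 < m) (h1 : G.Adj x (f s)) (h2 : G.Adj x (f (m - 1)))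
    (h3 : G.Adj y (f (s + 1))) (h4 : G.Adj y (f 0)) :
    ∃ a : V, ∃ p : G.Walk a a, p.IsHamiltonianCycle := by
  have hm3 := h.three
  have hfx : ∀ i, f i ≠ x := fun i hi => (h.mem i) (by simp [hi])
  have hfy : ∀ i, f i ≠ y := fun i hi => (h.mem i) (by simp [hi])
  let g : ℕ → V := fun k =>
    if k ≤ s then f k else if k = s + 1 then x else if k ≤ m then f (m + 1 + s - k) else y
  have g1 : ∀ k, k ≤ s → g k = f k := fun k hk => if_pos hk
  have g2 : g (s + 1) = x := by
    show (if s + 1 ≤ s then _ else _) = x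
    rw [if_neg (by omega), if_pos rfl]
  have g3 : ∀ k, s + 2 ≤ k → k ≤ m → g k = f (m + 1 + s - k) := by
    intro k hk hk'
    show (if k ≤ s then _ else _) = _
    rw [if_neg (by omega), if_neg (by omega), if_pos hk']
  have g4 : g (m + 1) = y := by
    show (if m + 1 ≤ s then _ else _) = y
    rw [if_neg (by omega), if_neg (by omega), if_neg (by omega)]
  refine ham_of_seq G (m + 2) g (by omega) ?_ ?_ ?_ ?_
  · intro k hk
    rcases (show k + 1 ≤ s ∨ k = s ∨ k = s + 1 ∨ (s + 2 ≤ k ∧ k + 1 ≤ m) ∨ k = m by omega) with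
      hc | hc | hc | hc | hc
    · rw [g1 k (by omega), g1 (k + 1) hc]
      exact h.adj k
    · rw [hc, g1 s le_rfl, g2]
      exact h1.symm
    · rw [hc, g2, g3 (s + 1 + 1) (by omega) (by omega),
        show m + 1 + s - (s + 1 + 1) = m - 1 by omega]
      exact h2
    · rw [g3 k hc.1 (by omega), g3 (k + 1) (by omega) hc.2]
      have := h.adj (m + 1 + s - (k + 1))
      rw [show m + 1 + s - (k + 1) + 1 = m + 1 + s - k by omega] at this
      exact this.symm
    · rw [hc, g3 m (by omega) le_rfl, g4, show m + 1 + s - m = s + 1 by omega]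
      exact h3.symm
  · rw [show m + 2 - 1 = m + 1 by omega, g4, g1 0 (by omega)]
    exact h4
  · intro i j hi hj hij
    rcases (show i ≤ s ∨ i = s + 1 ∨ (s + 2 ≤ i ∧ i ≤ m) ∨ i = m + 1 by omega) with
      hi' | hi' | hi' | hi' <;>
    rcases (show j ≤ s ∨ j = s + 1 ∨ (s + 2 ≤ j ∧ j ≤ m) ∨ j = m + 1 by omega) with
      hj' | hj' | hj' | hj'
    · rw [g1 i hi', g1 j hj'] at hij
      exact h.inj i j (by omega) (by omega) hij
    · rw [g1 i hi', hj', g2] at hij; exact absurd hij (hfx i)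
    · rw [g1 i hi', g3 j hj'.1 hj'.2] at hij
      have := h.inj _ _ (by omega) (by omega) hij
      omega
    · rw [g1 i hi', hj', g4] at hij; exact absurd hij (hfy i)
    · rw [hi', g2, g1 j hj'] at hij; exact absurd hij.symm (hfx j)
    · omega
    · rw [hi', g2, g3 j hj'.1 hj'.2] at hij; exact absurd hij.symm (hfx _)
    · rw [hi', g2, hj', g4] at hij; exact absurd hij hne
    · rw [g3 i hi'.1 hi'.2, g1 j hj'] at hij
      have := h.inj _ _ (by omega) (by omega) hij
      omega
    · rw [g3 i hi'.1 hi'.2, hj', g2] at hij; exact absurd hij (hfx _)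
    · rw [g3 i hi'.1 hi'.2, g3 j hj'.1 hj'.2] at hij
      have := h.inj _ _ (by omega) (by omega) hij
      omega
    · rw [g3 i hi'.1 hi'.2, hj', g4] at hij; exact absurd hij (hfy _)
    · rw [hi', g4, g1 j hj'] at hij; exact absurd hij.symm (hfy j)
    · rw [hi', g4, hj', g2] at hij; exact absurd hij.symm hne
    · rw [hi', g4, g3 j hj'.1 hj'.2] at hij; exact absurd hij.symm (hfy _)
    · omega
  · intro v
    by_cases hvx : v = x
    · exact ⟨s + 1, by omega, by rw [g2, hvx]⟩
    · by_cases hvy : v = y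
      · exact ⟨m + 1, by omega, by rw [g4, hvy]⟩
      · obtain ⟨i, hi, hiv⟩ := h.surj v (by
          intro hm
          rcases hm with hm | hm
          · exact hvx hm
          · exact hvy hm)
        rcases Nat.lt_or_ge s i with hsi | hsi
        · refine ⟨m + 1 + s - i, by omega, ?_⟩
          rw [g3 _ (by omega) (by omega), show m + 1 + s - (m + 1 + s - i) = i by omega, hiv]
        · exact ⟨i, by omega, by rw [g1 i hsi, hiv]⟩

theorem cross {x y : V} (hne : x ≠ y) (h : Cyc G ({x, y}ᶜ : Set V) m f) {i j : ℕ}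
    (hij : i < j) (hj : j < m) (h1 : G.Adj x (f i)) (h2 : G.Adj y (f (i + 1)))
    (h3 : G.Adj x (f j)) (h4 : G.Adj y (f (j + 1))) :
    ∃ a : V, ∃ p : G.Walk a a, p.IsHamiltonianCycle := by
  have hm3 := h.three
  refine cross0 hne (h.shift (j + 1)) (i + m - (j + 1)) (by omega) ?_ ?_ ?_ ?_
  · show G.Adj x (f (i + m - (j + 1) + (j + 1)))
    rw [show i + m - (j + 1) + (j + 1) = i + m by omega, h.per]
    exact h1
  · show G.Adj x (f (m - 1 + (j + 1)))
    rw [show m - 1 + (j + 1) = j + m by omega, h.per]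
    exact h3
  · show G.Adj y (f (i + m - (j + 1) + 1 + (j + 1)))
    rw [show i + m - (j + 1) + 1 + (j + 1) = i + 1 + m by omega, h.per]
    exact h2
  · show G.Adj y (f (0 + (j + 1)))
    rw [Nat.zero_add]
    exact h4

end cross

theorem count_nonadj {m : ℕ} [NeZero m] (A B : Finset (ZMod m)) (hAA : ∀ i, i ∈ A → i + 1 ∉ A)
    (hBB : ∀ i, i ∈ B → i + 1 ∉ B)
    (hAB : ∀ i j, i ∈ A → i + 1 ∈ B → j ∈ A → j + 1 ∈ B → i = j)
    (hBA : ∀ i j, i ∈ B → i + 1 ∈ A → j ∈ B → j + 1 ∈ A → i = j) :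
    2 * (A ∪ B).card ≤ m + 2 := by
  classical
  set U := A ∪ B with hU
  have inj1 : Function.Injective (fun i : ZMod m => i + 1) := add_left_injective 1
  let P1 : Finset (ZMod m) := univ.filter (fun i => i ∈ A ∧ i + 1 ∈ B)
  let P2 : Finset (ZMod m) := univ.filter (fun i => i ∈ B ∧ i + 1 ∈ A)
  have c1 : P1.card ≤ 1 := by
    rw [card_le_one]
    intro i hi j hj
    simp only [P1, mem_filter, mem_univ, true_and] at hi hj
    exact hAB i j hi.1 hi.2 hj.1 hj.2
  have c2 : P2.card ≤ 1 := by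
    rw [card_le_one]
    intro i hi j hj
    simp only [P2, mem_filter, mem_univ, true_and] at hi hj
    exact hBA i j hi.1 hi.2 hj.1 hj.2
  have hsub : U ∩ U.image (fun i => i + 1) ⊆ (P1 ∪ P2).image (fun i => i + 1) := by
    intro z hz
    obtain ⟨hz1, hz2⟩ := mem_inter.1 hz
    obtain ⟨i, hi, rfl⟩ := mem_image.1 hz2
    refine mem_image.2 ⟨i, ?_, rfl⟩
    rw [hU, mem_union] at hi
    have hz1' : i + 1 ∈ A ∨ i + 1 ∈ B := mem_union.1 hz1
    rw [mem_union]
    simp only [P1, P2, mem_filter, mem_univ, true_and]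
    rcases hi with hi | hi <;> rcases hz1' with h | h
    · exact absurd h (hAA i hi)
    · exact Or.inl ⟨hi, h⟩
    · exact Or.inr ⟨hi, h⟩
    · exact absurd h (hBB i hi)
  have c3 : (U ∩ U.image (fun i => i + 1)).card ≤ 2 := by
    refine (card_le_card hsub).trans (card_image_le.trans ?_)
    exact (card_union_le P1 P2).trans (by omega)
  have c4 := card_union_add_card_inter U (U.image (fun i => i + 1))
  rw [card_image_of_injective _ inj1] at c4
  have c5 := card_le_univ (U ∪ U.image (fun i => i + 1))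
  rw [ZMod.card] at c5
  omega

variable {V : Type*} [Fintype V] [DecidableEq V] {G : SimpleGraph V} [DecidableRel G.Adj]

/-- Nonadjacent pairs. -/
theorem nonedge_ineq
    (h0 : ¬ ∃ a : V, ∃ p : G.Walk a a, p.IsHamiltonianCycle)
    (h1 : ∀ v : V, ¬ ∃ a : ↥(({v}ᶜ : Set V)),
      ∃ p : (G.induce ({v}ᶜ : Set V)).Walk a a, p.IsHamiltonianCycle)
    (h2 : ∀ v w : V, v ≠ w → ∃ a : ↥(({v, w}ᶜ : Set V)),
      ∃ p : (G.induce ({v, w}ᶜ : Set V)).Walk a a, p.IsHamiltonianCycle)
    {x y : V} (hne : x ≠ y) (hxy : ¬ G.Adj x y) :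
    2 * (G.neighborFinset x ∪ G.neighborFinset y).card ≤ Fintype.card V := by
  obtain ⟨a, p, hp⟩ := h2 x y hne
  obtain ⟨f, hf⟩ := cyc_of_ham G _ a p hp
  set m := p.length with hm
  have h3 := hf.three
  have : NeZero m := ⟨by omega⟩
  have hf' : Cyc G ({y, x}ᶜ : Set V) m f := by
    rw [Set.pair_comm y x]
    exact hf
  have hfx : ∀ i, f i ≠ x := fun i hi => (hf.mem i) (by simp [hi])
  have hfy : ∀ i, f i ≠ y := fun i hi => (hf.mem i) (by simp [hi])
  let h : ZMod m → V := fun i => f i.val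
  have hcast : ∀ k : ℕ, h (k : ZMod m) = f k := by
    intro k
    show f ((k : ZMod m).val) = f k
    rw [ZMod.val_natCast, hf.map_mod]
  have hh1 : ∀ i : ZMod m, h (i + 1) = f (i.val + 1) := by
    intro i
    rw [← hcast (i.val + 1)]
    congr 1
    push_cast
    rw [ZMod.natCast_zmod_val]
  have hinj : Function.Injective h := by
    intro i j hij
    exact ZMod.val_injective m (hf.inj _ _ (ZMod.val_lt i) (ZMod.val_lt j) hij)
  have hsurj : ∀ v, v ≠ x → v ≠ y → ∃ i, h i = v := by
    intro v hvx hvy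
    obtain ⟨k, hk, hkv⟩ := hf.surj v (by
      intro hm
      rcases hm with hm | hm
      · exact hvx hm
      · exact hvy hm)
    exact ⟨(k : ZMod m), by rw [hcast, hkv]⟩
  let A : Finset (ZMod m) := univ.filter (fun i => G.Adj x (h i))
  let B : Finset (ZMod m) := univ.filter (fun i => G.Adj y (h i))
  have hmA : ∀ i, i ∈ A ↔ G.Adj x (h i) := fun i => by simp [A]
  have hmB : ∀ i, i ∈ B ↔ G.Adj y (h i) := fun i => by simp [B]
  have hUimg : (A ∪ B).image h = G.neighborFinset x ∪ G.neighborFinset y := by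
    ext v
    simp only [mem_image, mem_union, mem_neighborFinset]
    constructor
    · rintro ⟨i, hi | hi, rfl⟩
      · exact Or.inl ((hmA i).1 hi)
      · exact Or.inr ((hmB i).1 hi)
    · rintro (hv | hv)
      · obtain ⟨i, rfl⟩ := hsurj v hv.ne' (fun he => hxy (he ▸ hv))
        exact ⟨i, Or.inl ((hmA i).2 hv), rfl⟩
      · obtain ⟨i, rfl⟩ := hsurj v (fun he => hxy (he ▸ hv).symm) hv.ne'
        exact ⟨i, Or.inr ((hmB i).2 hv), rfl⟩
  have hVimg : (univ : Finset (ZMod m)).image h = univ \ {x, y} := by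
    ext v
    simp only [mem_image, mem_univ, true_and, mem_sdiff, mem_insert, mem_singleton, not_or]
    constructor
    · rintro ⟨i, rfl⟩
      exact ⟨hfx _, hfy _⟩
    · rintro ⟨hvx, hvy⟩
      exact hsurj v hvx hvy
  have cU : m + 2 = Fintype.card V := by
    have e1 : (univ : Finset (ZMod m)).card = m := by rw [card_univ, ZMod.card]
    have e2 := card_image_of_injective (univ : Finset (ZMod m)) hinj
    rw [hVimg, e1, card_sdiff_of_subset (subset_univ _), card_pair hne, card_univ] at e2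
    have e3 : ({x, y} : Finset V).card ≤ Fintype.card V := card_le_univ _
    rw [card_pair hne] at e3
    omega
  rw [← hUimg, card_image_of_injective _ hinj, ← cU]
  refine count_nonadj A B ?_ ?_ ?_ ?_
  · exact fun i hi hi' => h1 y (ins_one hne hf i.val ((hmA i).1 hi)
      (by rw [← hh1]; exact (hmA _).1 hi'))
  · exact fun i hi hi' => h1 x (ins_one hne.symm hf' i.val ((hmB i).1 hi)
      (by rw [← hh1]; exact (hmB _).1 hi'))
  · intro i j hi hi' hj hj'
    by_contra hij
    have hv : i.val ≠ j.val := fun he => hij (ZMod.val_injective m he)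
    have k1 := (hmA i).1 hi
    have k2 : G.Adj y (f (i.val + 1)) := by rw [← hh1]; exact (hmB _).1 hi'
    have k3 := (hmA j).1 hj
    have k4 : G.Adj y (f (j.val + 1)) := by rw [← hh1]; exact (hmB _).1 hj'
    rcases Nat.lt_or_gt_of_ne hv with hlt | hlt
    · exact h0 (cross hne hf hlt (ZMod.val_lt j) k1 k2 k3 k4)
    · exact h0 (cross hne hf hlt (ZMod.val_lt i) k3 k4 k1 k2)
  · intro i j hi hi' hj hj'
    by_contra hij
    have hv : i.val ≠ j.val := fun he => hij (ZMod.val_injective m he)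
    have k1 := (hmB i).1 hi
    have k2 : G.Adj x (f (i.val + 1)) := by rw [← hh1]; exact (hmA _).1 hi'
    have k3 := (hmB j).1 hj
    have k4 : G.Adj x (f (j.val + 1)) := by rw [← hh1]; exact (hmA _).1 hj'
    rcases Nat.lt_or_gt_of_ne hv with hlt | hlt
    · exact h0 (cross hne.symm hf' hlt (ZMod.val_lt j) k1 k2 k3 k4)
    · exact h0 (cross hne.symm hf' hlt (ZMod.val_lt i) k3 k4 k1 k2)

end Pool.Agent.H58Ed
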