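import Mathlib

/-!
Hamiltonian cycles of induced subgraphs as periodic sequences.
-/

set_option autoImplicit false

namespace Pool.Agent.H58Ed

open SimpleGraph

/-- `f` runs periodically (period `m ≥ 3`) along a cycle of `G` whose vertex set is `S`. -/
structure Cyc {V : Type*} (G : SimpleGraph V) (S : Set V) (m : ℕ) (f : ℕ → V) : Prop where
  three : 3 ≤ m
  per : ∀ i, f (i + m) = f i
  adj : ∀ i, G.Adj (f i) (f (i + 1))
  inj : ∀ i j, i < m → j < m → f i = f j → i = j
  mem : ∀ i, f i ∈ S
  surj : ∀ v ∈ S, ∃ i, i < m ∧ f i = v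

theorem cyc_of_ham {V : Type*} [DecidableEq V] (G : SimpleGraph V) (S : Set V) (a : ↥S)
    (p : (G.induce S).Walk a a) (hp : p.IsHamiltonianCycle) :
    ∃ f : ℕ → V, Cyc G S p.length f := by
  have h3 : 3 ≤ p.length := hp.isCycle.three_le_length
  refine ⟨fun i => (p.getVert (i % p.length)).1, h3, ?_, ?_, ?_, ?_, ?_⟩
  · intro i
    simp
  · intro i
    have hlt : i % p.length < p.length := Nat.mod_lt _ (by omega)
    have hadj : (G.induce S).Adj (p.getVert (i % p.length)) (p.getVert (i % p.length + 1)) :=
      p.adj_getVert_succ hlt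
    have hadj' : G.Adj (p.getVert (i % p.length)).1 (p.getVert (i % p.length + 1)).1 := hadj
    have he : p.getVert ((i + 1) % p.length) = p.getVert (i % p.length + 1) := by
      rcases Nat.lt_or_ge (i % p.length + 1) p.length with h | h
      · rw [Nat.add_mod, Nat.mod_eq_of_lt (show 1 < p.length by omega), Nat.mod_eq_of_lt h]
      · have h' : i % p.length + 1 = p.length := by omega
        rw [Nat.add_mod, Nat.mod_eq_of_lt (show 1 < p.length by omega), h', Nat.mod_self]
        simp
    show G.Adj (p.getVert (i % p.length)).1 (p.getVert ((i + 1) % p.length)).1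
    rw [he]
    exact hadj'
  · intro i j hi hj hij
    have hij' : (p.getVert (i % p.length)).1 = (p.getVert (j % p.length)).1 := hij
    rw [Nat.mod_eq_of_lt hi, Nat.mod_eq_of_lt hj] at hij'
    exact hp.isCycle.getVert_injOn' (show i ≤ p.length - 1 by omega)
      (show j ≤ p.length - 1 by omega) (Subtype.ext hij')
  · intro i
    exact (p.getVert (i % p.length)).2
  · intro v hv
    have hs := hp.mem_support ⟨v, hv⟩
    rw [Walk.mem_support_iff_exists_getVert] at hs
    obtain ⟨n, hn, hnle⟩ := hs
    rcases Nat.lt_or_ge n p.length with h | h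
    · refine ⟨n, h, ?_⟩
      show (p.getVert (n % p.length)).1 = v
      rw [Nat.mod_eq_of_lt h, hn]
    · have hnl : n = p.length := le_antisymm hnle h
      refine ⟨0, by omega, ?_⟩
      show (p.getVert (0 % p.length)).1 = v
      rw [Nat.zero_mod]
      subst hnl
      rw [Walk.getVert_length] at hn
      rw [Walk.getVert_zero, hn]

namespace Cyc

variable {V : Type*} {G : SimpleGraph V} {S : Set V} {m : ℕ} {f : ℕ → V}

theorem map_mod (h : Cyc G S m f) (i : ℕ) : f (i % m) = f i :=
  Function.Periodic.map_mod_nat (show Function.Periodic f m from h.per) i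

theorem eq_iff (h : Cyc G S m f) (i j : ℕ) : f i = f j ↔ i % m = j % m := by
  have hm : 0 < m := by have := h.three; omega
  constructor
  · intro hij
    rw [← h.map_mod i, ← h.map_mod j] at hij
    exact h.inj _ _ (Nat.mod_lt _ hm) (Nat.mod_lt _ hm) hij
  · intro hij
    rw [← h.map_mod i, ← h.map_mod j, hij]

theorem shift (h : Cyc G S m f) (s : ℕ) : Cyc G S m (fun i => f (i + s)) where
  three := h.three
  per i := by
    show f (i + m + s) = f (i + s)
    rw [show i + m + s = i + s + m by ring, h.per]
  adj i := by
    show G.Adj (f (i + s)) (f (i + 1 + s))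
    rw [show i + 1 + s = i + s + 1 by ring]
    exact h.adj _
  inj i j hi hj hij := by
    have := (h.eq_iff _ _).1 hij
    exact Nat.ModEq.eq_of_lt_of_lt (Nat.ModEq.add_right_cancel' s this) hi hj
  mem i := h.mem _
  surj v hv := by
    have hm : 0 < m := by have := h.three; omega
    obtain ⟨i, hi, hiv⟩ := h.surj v hv
    refine ⟨(i + (m - s % m)) % m, Nat.mod_lt _ hm, ?_⟩
    show f ((i + (m - s % m)) % m + s) = v
    rw [← hiv, h.eq_iff]
    have hs : s % m < m := Nat.mod_lt _ hm
    have hs2 : s % m + m * (s / m) = s := Nat.mod_add_div s m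
    calc ((i + (m - s % m)) % m + s) % m = (i + (m - s % m) + s) % m := by
          rw [Nat.mod_add_mod]
      _ = (i + m * (1 + s / m)) % m := by
          congr 1
          have : m * (1 + s / m) = m + m * (s / m) := by ring
          omega
      _ = i % m := by simp

end Cyc

end Pool.Agent.H58Ed
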