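import Pool.Agent.H58Ed.Cross

/-!
The global edge bound.
-/

set_option autoImplicit false

namespace Pool.Agent.H58Ed

open SimpleGraph Finset

variable {V : Type*} [Fintype V] [DecidableEq V] (G : SimpleGraph V) [DecidableRel G.Adj]

theorem sum_adj_const (c : V → ℕ) :
    ∑ x, ∑ y, (if G.Adj x y then c x else 0) = ∑ x, G.degree x * c x := by
  refine sum_congr rfl (fun x _ => ?_)
  rw [← sum_filter, sum_const, smul_eq_mul]
  congr 1
  rw [← card_neighborFinset_eq_degree]
  congr 1
  ext y
  simp

theorem sum_adj_const' (c : V → ℕ) :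
    ∑ x, ∑ y, (if G.Adj x y then c y else 0) = ∑ x, G.degree x * c x := by
  rw [sum_comm, ← sum_adj_const G c]
  refine sum_congr rfl (fun x _ => sum_congr rfl (fun y _ => ?_))
  simp [G.adj_comm]

theorem sum_codeg :
    ∑ x, ∑ y, (G.neighborFinset x ∩ G.neighborFinset y).card = ∑ v, G.degree v ^ 2 := by
  have e1 : ∀ x, ∑ y, (G.neighborFinset x ∩ G.neighborFinset y).card
      = ∑ z, (if G.Adj x z then G.degree z else 0) := by
    intro x
    have e2 : ∀ y, (G.neighborFinset x ∩ G.neighborFinset y).card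
        = ∑ z, (if G.Adj x z then (if G.Adj z y then 1 else 0) else 0) := by
      intro y
      rw [← sum_filter, ← sum_filter, sum_const, smul_eq_mul, mul_one]
      congr 1
      ext z
      simp [G.adj_comm y z]
    simp_rw [e2]
    rw [sum_comm]
    refine sum_congr rfl (fun z _ => ?_)
    by_cases hz : G.Adj x z
    · simp only [hz, if_true]
      rw [← sum_filter, sum_const, smul_eq_mul, mul_one, ← card_neighborFinset_eq_degree]
      congr 1
      ext y
      simp
    · simp [hz]
  simp_rw [e1]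
  rw [sum_adj_const' G (fun v => G.degree v)]
  exact sum_congr rfl (fun v _ => (sq _).symm)

theorem edges_global
    (he : ∀ x y : V, G.Adj x y → 2 * (G.degree x + G.degree y)
      ≤ Fintype.card V + (G.neighborFinset x ∩ G.neighborFinset y).card)
    (hn : ∀ x y : V, x ≠ y → ¬ G.Adj x y →
      2 * (G.neighborFinset x ∪ G.neighborFinset y).card ≤ Fintype.card V)
    (hd : ∀ v : V, 2 * G.degree v ≤ Fintype.card V) :
    8 * G.edgeFinset.card ^ 2 + 6 * Fintype.card V ^ 2 * G.edgeFinset.card
      ≤ Fintype.card V ^ 4 := by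
  set n := Fintype.card V with hn'
  have hsum := G.sum_degrees_eq_twice_card_edges
  set D := ∑ v, G.degree v with hD
  set Q := ∑ v, G.degree v ^ 2 with hQ
  have hCS : D ^ 2 ≤ n * Q := by
    have := sq_sum_le_card_mul_sum_sq (s := (univ : Finset V)) (f := fun v => G.degree v)
    rw [card_univ] at this
    exact this
  have hpair : ∀ x y : V, 2 * G.degree x + 2 * G.degree y
      + ((if G.Adj x y then 2 * G.degree x else 0) + (if G.Adj x y then 2 * G.degree y else 0))
      ≤ n + 2 * (G.neighborFinset x ∩ G.neighborFinset y).card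
        + (if G.Adj x y then n else 0) := by
    intro x y
    by_cases hxy : G.Adj x y
    · simp only [hxy, if_true]
      have := he x y hxy
      omega
    · simp only [hxy, if_false]
      by_cases hxe : x = y
      · subst hxe
        rw [inter_self, card_neighborFinset_eq_degree]
        have := hd x
        omega
      · have h1 := hn x y hxe hxy
        have h2 := card_union_add_card_inter (G.neighborFinset x) (G.neighborFinset y)
        rw [card_neighborFinset_eq_degree, card_neighborFinset_eq_degree] at h2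
        omega
  have htot := sum_le_sum (fun x (_ : x ∈ (univ : Finset V)) =>
    sum_le_sum (fun y (_ : y ∈ (univ : Finset V)) => hpair x y))
  have s1 : ∑ x : V, ∑ y : V, (2 * G.degree x) = 2 * (n * D) := by
    simp only [sum_const, card_univ, smul_eq_mul, ← mul_sum]
    rw [← hn', ← hD]
    ring
  have s2 : ∑ x : V, ∑ y : V, (2 * G.degree y) = 2 * (n * D) := by
    simp only [sum_const, card_univ, smul_eq_mul, ← mul_sum]
    rw [← hn', ← hD]
    ring
  have s3 : ∑ x : V, ∑ y : V, (if G.Adj x y then 2 * G.degree x else 0) = 2 * Q := by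
    rw [sum_adj_const G (fun v => 2 * G.degree v), hQ, mul_sum]
    exact sum_congr rfl (fun v _ => by ring)
  have s4 : ∑ x : V, ∑ y : V, (if G.Adj x y then 2 * G.degree y else 0) = 2 * Q := by
    rw [sum_adj_const' G (fun v => 2 * G.degree v), hQ, mul_sum]
    exact sum_congr rfl (fun v _ => by ring)
  have s5 : ∑ x : V, ∑ y : V, n = n ^ 3 := by
    simp only [sum_const, card_univ, smul_eq_mul]
    rw [← hn']
    ring
  have s6 : ∑ x : V, ∑ y : V, 2 * (G.neighborFinset x ∩ G.neighborFinset y).card = 2 * Q := by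
    simp only [← mul_sum]
    rw [sum_codeg G]
  have s7 : ∑ x : V, ∑ y : V, (if G.Adj x y then n else 0) = n * D := by
    rw [sum_adj_const G (fun _ => n), ← sum_mul, ← hD, mul_comm]
  simp only [sum_add_distrib] at htot
  rw [s1, s2, s3, s4, s5, s6, s7] at htot
  have hmain : 3 * (n * D) + 2 * Q ≤ n ^ 3 := by omega
  have hD2 : D = 2 * G.edgeFinset.card := hsum
  have h6 : 3 * n ^ 2 * D + 2 * D ^ 2 ≤ n ^ 4 := by
    calc 3 * n ^ 2 * D + 2 * D ^ 2 ≤ 3 * n ^ 2 * D + 2 * (n * Q) := by gcongr
      _ = n * (3 * (n * D) + 2 * Q) := by ring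
      _ ≤ n * n ^ 3 := Nat.mul_le_mul_left _ hmain
      _ = n ^ 4 := by ring
  rw [hD2] at h6
  calc 8 * G.edgeFinset.card ^ 2 + 6 * n ^ 2 * G.edgeFinset.card
      = 3 * n ^ 2 * (2 * G.edgeFinset.card) + 2 * (2 * G.edgeFinset.card) ^ 2 := by ring
    _ ≤ n ^ 4 := h6

theorem seven_edges {n e : ℕ} (hn : 0 < n) (h : 8 * e ^ 2 + 6 * n ^ 2 * e ≤ n ^ 4) :
    7 * e < n ^ 2 := by
  by_contra hcon
  push Not at hcon
  have h1 : n ^ 2 * n ^ 2 ≤ 7 * e * n ^ 2 := Nat.mul_le_mul_right _ hcon
  have h2 : n ^ 2 * n ^ 2 ≤ 7 * e * (7 * e) := Nat.mul_le_mul hcon hcon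
  have h3 : 0 < n ^ 2 * n ^ 2 := by positivity
  have h4 : n ^ 4 = n ^ 2 * n ^ 2 := by ring
  nlinarith

end Pool.Agent.H58Ed
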