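import Pool.Agent.H58Ed.Cyc
import Pool.Agent.H58Ed.Seq

/-!
Insertions into Hamiltonian cycles.
-/

set_option autoImplicit false

namespace Pool.Agent.H58Ed

open SimpleGraph

variable {V : Type*} [Finite V] [DecidableEq V] {G : SimpleGraph V} {m : ℕ} {f : ℕ → V}

/-- insert `x` at the end of the sequence -/
theorem ins_one0 {x y : V} (hxy : x ≠ y) (h : Cyc G ({x, y}ᶜ : Set V) m f)
    (h1 : G.Adj (f (m - 1)) x) (h2 : G.Adj x (f 0)) :
    ∃ a : ↥(({y}ᶜ : Set V)), ∃ p : (G.induce ({y}ᶜ : Set V)).Walk a a, p.IsHamiltonianCycle := by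
  have h3 := h.three
  have hfx : ∀ i, f i ≠ x := fun i hi => (h.mem i) (by simp [hi])
  have hfy : ∀ i, f i ≠ y := fun i hi => (h.mem i) (by simp [hi])
  refine ham_induce_of_seq G _ (m + 1) (fun i => if i < m then f i else x) (by omega) ?_ ?_ ?_ ?_ ?_
  · intro i hi
    rcases Nat.lt_or_ge (i + 1) m with h' | h'
    · simp only [show i < m by omega, h', if_true]
      exact h.adj i
    · have : i = m - 1 := by omega
      subst this
      simp only [show m - 1 < m by omega, if_true, show ¬ (m - 1 + 1 < m) by omega, if_false]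
      exact h1
  · simp only [show ¬ (m + 1 - 1 < m) by omega, if_false, show 0 < m by omega, if_true]
    exact h2
  · intro i j hi hj hij
    rcases Nat.lt_or_ge i m with hi' | hi' <;> rcases Nat.lt_or_ge j m with hj' | hj'
    · simp only [hi', hj', if_true] at hij
      exact h.inj i j hi' hj' hij
    · simp only [hi', if_true, show ¬ (j < m) by omega, if_false] at hij
      exact absurd hij (hfx i)
    · simp only [hj', if_true, show ¬ (i < m) by omega, if_false] at hij
      exact absurd hij.symm (hfx j)
    · omega
  · intro i hi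
    rcases Nat.lt_or_ge i m with hi' | hi'
    · simp only [hi', if_true]
      exact hfy i
    · simp only [show ¬ (i < m) by omega, if_false]
      exact hxy
  · intro v hv
    by_cases hvx : v = x
    · exact ⟨m, by omega, by simp [hvx]⟩
    · obtain ⟨i, hi, hiv⟩ := h.surj v (by
        intro hm
        rcases hm with hm | hm
        · exact hvx hm
        · exact hv hm)
      exact ⟨i, by omega, by simp [hi, hiv]⟩

/-- insert `x, y` at the end of the sequence -/
theorem ins_two0 {x y : V} (hxy : G.Adj x y) (h : Cyc G ({x, y}ᶜ : Set V) m f)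
    (h1 : G.Adj (f (m - 1)) x) (h2 : G.Adj y (f 0)) :
    ∃ a : V, ∃ p : G.Walk a a, p.IsHamiltonianCycle := by
  have h3 := h.three
  have hfx : ∀ i, f i ≠ x := fun i hi => (h.mem i) (by simp [hi])
  have hfy : ∀ i, f i ≠ y := fun i hi => (h.mem i) (by simp [hi])
  have hne : x ≠ y := hxy.ne
  have e1 : ∀ i, i < m → (if i < m then f i else if i = m then x else y) = f i :=
    fun i hi => if_pos hi
  have e2 : (if m < m then f m else if m = m then x else y) = x := by simp
  have e3 : (if m + 1 < m then f (m + 1) else if m + 1 = m then x else y) = y := by simp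
  refine ham_of_seq G (m + 2) (fun i => if i < m then f i else if i = m then x else y)
    (by omega) ?_ ?_ ?_ ?_
  · intro i hi
    show G.Adj (if i < m then f i else if i = m then x else y)
      (if i + 1 < m then f (i + 1) else if i + 1 = m then x else y)
    rcases Nat.lt_or_ge (i + 1) m with h' | h'
    · rw [e1 i (by omega), e1 (i + 1) h']
      exact h.adj i
    · rcases Nat.lt_or_ge i m with h'' | h''
      · have hi' : i + 1 = m := by omega
        rw [e1 i h'', hi', e2]
        have : i = m - 1 := by omega
        rw [this]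
        exact h1
      · have hi' : i = m := by omega
        subst hi'
        rw [e2, e3]
        exact hxy
  · show G.Adj (if m + 2 - 1 < m then f (m + 2 - 1) else if m + 2 - 1 = m then x else y)
      (if 0 < m then f 0 else if 0 = m then x else y)
    rw [show m + 2 - 1 = m + 1 by omega, e3, e1 0 (by omega)]
    exact h2
  · intro i j hi hj hij
    have hij' : (if i < m then f i else if i = m then x else y)
      = (if j < m then f j else if j = m then x else y) := hij
    clear hij
    rcases (show i < m ∨ i = m ∨ i = m + 1 by omega) with hi' | hi' | hi' <;>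
    rcases (show j < m ∨ j = m ∨ j = m + 1 by omega) with hj' | hj' | hj'
    · rw [e1 i hi', e1 j hj'] at hij'
      exact h.inj i j hi' hj' hij'
    · subst hj'; rw [e1 i hi', e2] at hij'; exact absurd hij' (hfx i)
    · subst hj'; rw [e1 i hi', e3] at hij'; exact absurd hij' (hfy i)
    · subst hi'; rw [e1 j hj', e2] at hij'; exact absurd hij'.symm (hfx j)
    · omega
    · subst hi'; subst hj'; rw [e2, e3] at hij'; exact absurd hij' hne
    · subst hi'; rw [e1 j hj', e3] at hij'; exact absurd hij'.symm (hfy j)
    · subst hj'; subst hi'; rw [e2, e3] at hij'; exact absurd hij'.symm hne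
    · omega
  · intro v
    by_cases hvx : v = x
    · exact ⟨m, by omega, by simp [hvx]⟩
    · by_cases hvy : v = y
      · exact ⟨m + 1, by omega, by simp [hvy]⟩
      · obtain ⟨i, hi, hiv⟩ := h.surj v (by
          intro hm
          rcases hm with hm | hm
          · exact hvx hm
          · exact hvy hm)
        exact ⟨i, by omega, by simp [hi, hiv]⟩

/-- replace the last vertex of the sequence by `x, y` -/
theorem ins_rep0 {x y : V} (hxy : G.Adj x y) (h : Cyc G ({x, y}ᶜ : Set V) m f)
    (h1 : G.Adj (f (m - 2)) x) (h2 : G.Adj y (f 0)) :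
    ∃ a : ↥(({f (m - 1)}ᶜ : Set V)), ∃ p : (G.induce ({f (m - 1)}ᶜ : Set V)).Walk a a,
      p.IsHamiltonianCycle := by
  have h3 := h.three
  have hfx : ∀ i, f i ≠ x := fun i hi => (h.mem i) (by simp [hi])
  have hfy : ∀ i, f i ≠ y := fun i hi => (h.mem i) (by simp [hi])
  have hne : x ≠ y := hxy.ne
  obtain ⟨k, rfl⟩ : ∃ k, m = k + 1 := ⟨m - 1, by omega⟩
  show ∃ a : ↥(({f k}ᶜ : Set V)), ∃ p : (G.induce ({f k}ᶜ : Set V)).Walk a a,
      p.IsHamiltonianCycle
  have e1 : ∀ i, i < k → (if i < k then f i else if i = k then x else y) = f i :=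
    fun i hi => if_pos hi
  have e2 : (if k < k then f k else if k = k then x else y) = x := by simp
  have e3 : (if k + 1 < k then f (k + 1) else if k + 1 = k then x else y) = y := by simp
  refine ham_induce_of_seq G _ (k + 2) (fun i => if i < k then f i else if i = k then x else y)
    (by omega) ?_ ?_ ?_ ?_ ?_
  · intro i hi
    show G.Adj (if i < k then f i else if i = k then x else y)
      (if i + 1 < k then f (i + 1) else if i + 1 = k then x else y)
    rcases Nat.lt_or_ge (i + 1) k with h' | h'
    · rw [e1 i (by omega), e1 (i + 1) h']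
      exact h.adj i
    · rcases Nat.lt_or_ge i k with h'' | h''
      · have hi' : i + 1 = k := by omega
        rw [e1 i h'', hi', e2]
        have : i = k + 1 - 2 := by omega
        rw [this]
        exact h1
      · have hi' : i = k := by omega
        subst hi'
        rw [e2, e3]
        exact hxy
  · show G.Adj (if k + 2 - 1 < k then f (k + 2 - 1) else if k + 2 - 1 = k then x else y)
      (if 0 < k then f 0 else if 0 = k then x else y)
    rw [show k + 2 - 1 = k + 1 by omega, e3, e1 0 (by omega)]
    exact h2
  · intro i j hi hj hij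
    have hij' : (if i < k then f i else if i = k then x else y)
      = (if j < k then f j else if j = k then x else y) := hij
    clear hij
    rcases (show i < k ∨ i = k ∨ i = k + 1 by omega) with hi' | hi' | hi' <;>
    rcases (show j < k ∨ j = k ∨ j = k + 1 by omega) with hj' | hj' | hj'
    · rw [e1 i hi', e1 j hj'] at hij'
      exact h.inj i j (by omega) (by omega) hij'
    · subst hj'; rw [e1 i hi', e2] at hij'; exact absurd hij' (hfx i)
    · subst hj'; rw [e1 i hi', e3] at hij'; exact absurd hij' (hfy i)
    · subst hi'; rw [e1 j hj', e2] at hij'; exact absurd hij'.symm (hfx j)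
    · omega
    · subst hi'; subst hj'; rw [e2, e3] at hij'; exact absurd hij' hne
    · subst hi'; rw [e1 j hj', e3] at hij'; exact absurd hij'.symm (hfy j)
    · subst hj'; subst hi'; rw [e2, e3] at hij'; exact absurd hij'.symm hne
    · omega
  · intro i hi
    show (if i < k then f i else if i = k then x else y) ∈ ({f k}ᶜ : Set V)
    rcases (show i < k ∨ i = k ∨ i = k + 1 by omega) with hi' | hi' | hi'
    · rw [e1 i hi']
      intro hik
      have := h.inj i k (by omega) (by omega) hik
      omega
    · subst hi'; rw [e2]; intro hik; exact hfx _ hik.symm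
    · subst hi'; rw [e3]; intro hik; exact hfy _ hik.symm
  · intro v hv
    by_cases hvx : v = x
    · exact ⟨k, by omega, by simp [hvx]⟩
    · by_cases hvy : v = y
      · exact ⟨k + 1, by omega, by simp [hvy]⟩
      · obtain ⟨i, hi, hiv⟩ := h.surj v (by
          intro hm
          rcases hm with hm | hm
          · exact hvx hm
          · exact hvy hm)
        have hik : i ≠ k := by
          rintro rfl
          exact hv hiv.symm
        exact ⟨i, by omega, by simp [show i < k by omega, hiv]⟩

/-- insert `x` between two consecutive vertices -/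
theorem ins_one {x y : V} (hxy : x ≠ y) (h : Cyc G ({x, y}ᶜ : Set V) m f) (i : ℕ)
    (h1 : G.Adj x (f i)) (h2 : G.Adj x (f (i + 1))) :
    ∃ a : ↥(({y}ᶜ : Set V)), ∃ p : (G.induce ({y}ᶜ : Set V)).Walk a a, p.IsHamiltonianCycle := by
  have h3 := h.three
  refine ins_one0 hxy (h.shift (i + 1)) ?_ ?_
  · show G.Adj (f (m - 1 + (i + 1))) x
    rw [show m - 1 + (i + 1) = i + m by omega, h.per]
    exact h1.symm
  · show G.Adj x (f (0 + (i + 1)))
    rw [Nat.zero_add]
    exact h2

/-- insert `x, y` between two consecutive vertices -/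
theorem ins_two {x y : V} (hxy : G.Adj x y) (h : Cyc G ({x, y}ᶜ : Set V) m f) (i : ℕ)
    (h1 : G.Adj x (f i)) (h2 : G.Adj y (f (i + 1))) :
    ∃ a : V, ∃ p : G.Walk a a, p.IsHamiltonianCycle := by
  have h3 := h.three
  refine ins_two0 hxy (h.shift (i + 1)) ?_ ?_
  · show G.Adj (f (m - 1 + (i + 1))) x
    rw [show m - 1 + (i + 1) = i + m by omega, h.per]
    exact h1.symm
  · show G.Adj y (f (0 + (i + 1)))
    rw [Nat.zero_add]
    exact h2

/-- replace a vertex by `x, y` -/
theorem ins_rep {x y : V} (hxy : G.Adj x y) (h : Cyc G ({x, y}ᶜ : Set V) m f) (i : ℕ)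
    (h1 : G.Adj x (f i)) (h2 : G.Adj y (f (i + 2))) :
    ∃ v : V, ∃ a : ↥(({v}ᶜ : Set V)), ∃ p : (G.induce ({v}ᶜ : Set V)).Walk a a,
      p.IsHamiltonianCycle := by
  have h3 := h.three
  refine ⟨_, ins_rep0 hxy (h.shift (i + 2)) ?_ ?_⟩
  · show G.Adj (f (m - 2 + (i + 2))) x
    rw [show m - 2 + (i + 2) = i + m by omega, h.per]
    exact h1.symm
  · show G.Adj y (f (0 + (i + 2)))
    rw [Nat.zero_add]
    exact h2

end Pool.Agent.H58Ed
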