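import Pool.Agent.H58Ed.Ins
import Pool.Agent.H58Ed.Count

set_option autoImplicit false

namespace Pool.Agent.H58Ed

open SimpleGraph Finset

variable {V : Type*} [Fintype V] [DecidableEq V] {G : SimpleGraph V} [DecidableRel G.Adj]

/-- Every edge `xy` leaves at least three neighbours of `x` that are not `y` and not adjacent
to `y`. -/
theorem three_private (h5 : 5 ≤ Fintype.card V)
    (h1 : ∀ v : V, ¬ ∃ a : ↥(({v}ᶜ : Set V)),
      ∃ p : (G.induce ({v}ᶜ : Set V)).Walk a a, p.IsHamiltonianCycle)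
    (h2 : ∀ v w : V, v ≠ w → ∃ a : ↥(({v, w}ᶜ : Set V)),
      ∃ p : (G.induce ({v, w}ᶜ : Set V)).Walk a a, p.IsHamiltonianCycle)
    {x y : V} (hxy : G.Adj x y) :
    3 ≤ ((G.neighborFinset x).erase y \ G.neighborFinset y).card := by
  set D := (G.neighborFinset x).erase y \ G.neighborFinset y with hD
  have hmemD : ∀ v, v ∈ D ↔ v ≠ y ∧ G.Adj x v ∧ ¬ G.Adj y v := by
    intro v
    simp only [hD, mem_sdiff, mem_erase, mem_neighborFinset]
    tauto
  have key : ∀ w, w ≠ y → w ≠ x → ∃ u v, u ≠ v ∧ u ≠ w ∧ v ≠ w ∧ u ∈ D ∧ v ∈ D := by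
    intro w hwy hwx
    obtain ⟨a, p, hp⟩ := h2 y w hwy.symm
    obtain ⟨f, hf⟩ := cyc_of_ham G _ a p hp
    set m := p.length with hm
    have h3 := hf.three
    have hfy : ∀ i, f i ≠ y := fun i hi => (hf.mem i) (by simp [hi])
    have hfw : ∀ i, f i ≠ w := fun i hi => (hf.mem i) (by simp [hi])
    obtain ⟨i, hi, hix⟩ := hf.surj x (by
      intro hm
      rcases hm with hm | hm
      · exact hxy.ne hm
      · exact hwx hm.symm)
    have hback : f (i + (m - 1) + 1) = x := by
      rw [show i + (m - 1) + 1 = i + m by omega, hf.per, hix]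
    have hu1 : G.Adj x (f (i + 1)) := by
      have := hf.adj i
      rwa [hix] at this
    have hv1 : G.Adj x (f (i + (m - 1))) := by
      have := hf.adj (i + (m - 1))
      rw [hback] at this
      exact this.symm
    refine ⟨f (i + 1), f (i + (m - 1)), ?_, hfw _, hfw _, ?_, ?_⟩
    · intro he
      rw [hf.eq_iff] at he
      have h' : 1 ≡ m - 1 [MOD m] := Nat.ModEq.add_left_cancel' i he
      have := Nat.ModEq.eq_of_lt_of_lt h' (by omega) (by omega)
      omega
    · rw [hmemD]
      refine ⟨hfy _, hu1, ?_⟩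
      intro hyu
      refine h1 w (ins_one hwy.symm hf i ?_ hyu)
      rw [hix]
      exact hxy.symm
    · rw [hmemD]
      refine ⟨hfy _, hv1, ?_⟩
      intro hyv
      refine h1 w (ins_one hwy.symm hf (i + (m - 1)) hyv ?_)
      rw [hback]
      exact hxy.symm
  by_contra hlt
  rcases D.eq_empty_or_nonempty with hE | ⟨w, hw⟩
  · obtain ⟨w, hw⟩ : ∃ w, w ∉ ({x, y} : Finset V) := by
      by_contra hall
      push Not at hall
      have h6 : (univ : Finset V) ⊆ {x, y} := fun v _ => hall v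
      have h7 := card_le_card h6
      have h8 : ({x, y} : Finset V).card ≤ 2 := card_le_two
      rw [card_univ] at h7
      omega
    simp only [mem_insert, mem_singleton, not_or] at hw
    obtain ⟨u, v, -, -, -, hu, -⟩ := key w hw.2 hw.1
    rw [hE] at hu
    exact absurd hu (notMem_empty u)
  · have hw' := (hmemD w).1 hw
    obtain ⟨u, v, huv, huw, hvw, hu, hv⟩ := key w hw'.1 hw'.2.1.ne'
    have h6 : ({u, v, w} : Finset V) ⊆ D := by
      intro z hz
      simp only [mem_insert, mem_singleton] at hz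
      rcases hz with rfl | rfl | rfl
      · exact hu
      · exact hv
      · exact hw
    have h7 := card_le_card h6
    have h8 : ({u, v, w} : Finset V).card = 3 := card_eq_three.2 ⟨u, v, w, huv, huw, hvw, rfl⟩
    omega

/-- The edge inequality. -/
theorem edge_ineq (h5 : 5 ≤ Fintype.card V)
    (h0 : ¬ ∃ a : V, ∃ p : G.Walk a a, p.IsHamiltonianCycle)
    (h1 : ∀ v : V, ¬ ∃ a : ↥(({v}ᶜ : Set V)),
      ∃ p : (G.induce ({v}ᶜ : Set V)).Walk a a, p.IsHamiltonianCycle)
    (h2 : ∀ v w : V, v ≠ w → ∃ a : ↥(({v, w}ᶜ : Set V)),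
      ∃ p : (G.induce ({v, w}ᶜ : Set V)).Walk a a, p.IsHamiltonianCycle)
    {x y : V} (hxy : G.Adj x y) :
    2 * (G.degree x + G.degree y)
      ≤ Fintype.card V + (G.neighborFinset x ∩ G.neighborFinset y).card := by
  obtain ⟨a, p, hp⟩ := h2 x y hxy.ne
  obtain ⟨f, hf⟩ := cyc_of_ham G _ a p hp
  set m := p.length with hm
  have h3 := hf.three
  have : NeZero m := ⟨by omega⟩
  have hf' : Cyc G ({y, x}ᶜ : Set V) m f := by
    rw [Set.pair_comm y x]
    exact hf
  have hfx : ∀ i, f i ≠ x := fun i hi => (hf.mem i) (by simp [hi])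
  have hfy : ∀ i, f i ≠ y := fun i hi => (hf.mem i) (by simp [hi])
  let h : ZMod m → V := fun i => f i.val
  have hcast : ∀ k : ℕ, h (k : ZMod m) = f k := by
    intro k
    show f ((k : ZMod m).val) = f k
    rw [ZMod.val_natCast, hf.map_mod]
  have hh0 : ∀ i : ZMod m, h i = f i.val := fun i => rfl
  have hh1 : ∀ i : ZMod m, h (i + 1) = f (i.val + 1) := by
    intro i
    rw [← hcast (i.val + 1)]
    congr 1
    push_cast
    rw [ZMod.natCast_zmod_val]
  have hh2 : ∀ i : ZMod m, h (i + 2) = f (i.val + 2) := by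
    intro i
    rw [← hcast (i.val + 2)]
    congr 1
    push_cast
    rw [ZMod.natCast_zmod_val]
  have hinj : Function.Injective h := by
    intro i j hij
    exact ZMod.val_injective m (hf.inj _ _ (ZMod.val_lt i) (ZMod.val_lt j) hij)
  have hsurj : ∀ v, v ≠ x → v ≠ y → ∃ i, h i = v := by
    intro v hvx hvy
    obtain ⟨k, hk, hkv⟩ := hf.surj v (by
      intro hm
      rcases hm with hm | hm
      · exact hvx hm
      · exact hvy hm)
    exact ⟨(k : ZMod m), by rw [hcast, hkv]⟩
  let A : Finset (ZMod m) := univ.filter (fun i => G.Adj x (h i))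
  let B : Finset (ZMod m) := univ.filter (fun i => G.Adj y (h i))
  have hmA : ∀ i, i ∈ A ↔ G.Adj x (h i) := fun i => by simp [A]
  have hmB : ∀ i, i ∈ B ↔ G.Adj y (h i) := fun i => by simp [B]
  have hAimg : A.image h = (G.neighborFinset x).erase y := by
    ext v
    simp only [mem_image, mem_erase, mem_neighborFinset]
    constructor
    · rintro ⟨i, hi, rfl⟩
      exact ⟨hfy _, (hmA i).1 hi⟩
    · rintro ⟨hvy, hxv⟩
      obtain ⟨i, rfl⟩ := hsurj v hxv.ne' hvy
      exact ⟨i, (hmA i).2 hxv, rfl⟩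
  have hBimg : B.image h = (G.neighborFinset y).erase x := by
    ext v
    simp only [mem_image, mem_erase, mem_neighborFinset]
    constructor
    · rintro ⟨i, hi, rfl⟩
      exact ⟨hfx _, (hmB i).1 hi⟩
    · rintro ⟨hvx, hyv⟩
      obtain ⟨i, rfl⟩ := hsurj v hvx hyv.ne'
      exact ⟨i, (hmB i).2 hyv, rfl⟩
  have hCimg : (A ∩ B).image h = G.neighborFinset x ∩ G.neighborFinset y := by
    ext v
    simp only [mem_image, mem_inter, mem_neighborFinset]
    constructor
    · rintro ⟨i, ⟨hi, hi'⟩, rfl⟩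
      exact ⟨(hmA i).1 hi, (hmB i).1 hi'⟩
    · rintro ⟨hxv, hyv⟩
      obtain ⟨i, rfl⟩ := hsurj v hxv.ne' hyv.ne'
      exact ⟨i, ⟨(hmA i).2 hxv, (hmB i).2 hyv⟩, rfl⟩
  have hUimg : (univ : Finset (ZMod m)).image h = univ \ {x, y} := by
    ext v
    simp only [mem_image, mem_univ, true_and, mem_sdiff, mem_insert, mem_singleton, not_or]
    constructor
    · rintro ⟨i, rfl⟩
      exact ⟨hfx _, hfy _⟩
    · rintro ⟨hvx, hvy⟩
      exact hsurj v hvx hvy
  have cA : A.card + 1 = G.degree x := by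
    rw [← card_image_of_injective A hinj, hAimg, ← card_neighborFinset_eq_degree]
    exact card_erase_add_one ((mem_neighborFinset G x y).2 hxy)
  have cB : B.card + 1 = G.degree y := by
    rw [← card_image_of_injective B hinj, hBimg, ← card_neighborFinset_eq_degree]
    exact card_erase_add_one ((mem_neighborFinset G y x).2 hxy.symm)
  have cC : (A ∩ B).card = (G.neighborFinset x ∩ G.neighborFinset y).card := by
    rw [← card_image_of_injective (A ∩ B) hinj, hCimg]
  have cU : m + 2 = Fintype.card V := by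
    have e1 : (univ : Finset (ZMod m)).card = m := by rw [card_univ, ZMod.card]
    have e2 := card_image_of_injective (univ : Finset (ZMod m)) hinj
    rw [hUimg, e1, card_sdiff_of_subset (subset_univ _), card_pair hxy.ne, card_univ] at e2
    omega
  have hprivA : ∃ i, i ∈ A ∧ i ∉ B := by
    have h6 := three_private h5 h1 h2 hxy
    obtain ⟨v, hv⟩ := card_pos.1 (show 0 < _ from lt_of_lt_of_le (by norm_num) h6)
    simp only [mem_sdiff, mem_erase, mem_neighborFinset] at hv
    obtain ⟨i, rfl⟩ := hsurj v hv.1.2.ne' hv.1.1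
    exact ⟨i, (hmA i).2 hv.1.2, fun hb => hv.2 ((hmB i).1 hb)⟩
  have hprivB : ∃ i, i ∈ B ∧ i ∉ A := by
    have h6 := three_private h5 h1 h2 hxy.symm
    obtain ⟨v, hv⟩ := card_pos.1 (show 0 < _ from lt_of_lt_of_le (by norm_num) h6)
    simp only [mem_sdiff, mem_erase, mem_neighborFinset] at hv
    obtain ⟨i, rfl⟩ := hsurj v hv.1.1 hv.1.2.ne'
    exact ⟨i, (hmB i).2 hv.1.2, fun hb => hv.2 ((hmA i).1 hb)⟩
  have hc := count A B
    (fun i hi hi' => h1 y (ins_one hxy.ne hf i.val ((hmA i).1 hi)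
      (by rw [← hh1]; exact (hmA _).1 hi')))
    (fun i hi hi' => h1 x (ins_one hxy.ne' hf' i.val ((hmB i).1 hi)
      (by rw [← hh1]; exact (hmB _).1 hi')))
    (fun i hi hi' => h0 (ins_two hxy hf i.val ((hmA i).1 hi)
      (by rw [← hh1]; exact (hmB _).1 hi')))
    (fun i hi hi' => h0 (ins_two hxy.symm hf' i.val ((hmB i).1 hi)
      (by rw [← hh1]; exact (hmA _).1 hi')))
    (fun i hi hi' => by
      obtain ⟨v, hv⟩ := ins_rep hxy hf i.val ((hmA i).1 hi)
        (by rw [← hh2]; exact (hmB _).1 hi')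
      exact h1 v hv)
    (fun i hi hi' => by
      obtain ⟨v, hv⟩ := ins_rep hxy.symm hf' i.val ((hmB i).1 hi)
        (by rw [← hh2]; exact (hmA _).1 hi')
      exact h1 v hv)
    hprivA hprivB
  omega

/-- common neighbours are few -/
theorem common_le (h5 : 5 ≤ Fintype.card V)
    (h1 : ∀ v : V, ¬ ∃ a : ↥(({v}ᶜ : Set V)),
      ∃ p : (G.induce ({v}ᶜ : Set V)).Walk a a, p.IsHamiltonianCycle)
    (h2 : ∀ v w : V, v ≠ w → ∃ a : ↥(({v, w}ᶜ : Set V)),
      ∃ p : (G.induce ({v, w}ᶜ : Set V)).Walk a a, p.IsHamiltonianCycle)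
    {x y : V} (hxy : G.Adj x y) :
    (G.neighborFinset x ∩ G.neighborFinset y).card + 4 ≤ G.degree x := by
  have h3 := three_private h5 h1 h2 hxy
  have e1 : ((G.neighborFinset x).erase y).card + 1 = G.degree x := by
    rw [← card_neighborFinset_eq_degree]
    exact card_erase_add_one ((mem_neighborFinset G x y).2 hxy)
  have e2 := card_sdiff_add_card_inter ((G.neighborFinset x).erase y) (G.neighborFinset y)
  have e3 : (G.neighborFinset x).erase y ∩ G.neighborFinset y
      = G.neighborFinset x ∩ G.neighborFinset y := by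
    ext v
    simp only [mem_inter, mem_erase, mem_neighborFinset]
    constructor
    · rintro ⟨⟨-, h⟩, h'⟩
      exact ⟨h, h'⟩
    · rintro ⟨h, h'⟩
      exact ⟨⟨h'.ne', h⟩, h'⟩
  rw [e3] at e2
  omega

/-- every vertex has a neighbour -/
theorem exists_nbr (h5 : 5 ≤ Fintype.card V)
    (h2 : ∀ v w : V, v ≠ w → ∃ a : ↥(({v, w}ᶜ : Set V)),
      ∃ p : (G.induce ({v, w}ᶜ : Set V)).Walk a a, p.IsHamiltonianCycle)
    (v : V) : ∃ x, G.Adj v x := by
  obtain ⟨s, hs, hs3⟩ := exists_subset_card_eq (show 3 ≤ (univ : Finset V).card by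
    rw [card_univ]; omega)
  obtain ⟨a, b, c, hab, hac, hbc, rfl⟩ := card_eq_three.1 hs3
  obtain ⟨u, w, huw, huv, hwv⟩ : ∃ u w : V, u ≠ w ∧ u ≠ v ∧ w ≠ v := by
    by_cases hav : a = v
    · subst hav
      exact ⟨b, c, hbc, hab.symm, hac.symm⟩
    · by_cases hbv : b = v
      · subst hbv
        exact ⟨a, c, hac, hab, hbc.symm⟩
      · exact ⟨a, b, hab, hav, hbv⟩
  obtain ⟨a', p, hp⟩ := h2 u w huw
  obtain ⟨f, hf⟩ := cyc_of_ham G _ a' p hp
  obtain ⟨i, -, hi⟩ := hf.surj v (by
    intro hm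
    rcases hm with hm | hm
    · exact huv hm.symm
    · exact hwv hm.symm)
  exact ⟨f (i + 1), hi ▸ hf.adj i⟩

/-- the number of edges -/
theorem edges_le (h5 : 5 ≤ Fintype.card V)
    (hd : ∀ x y : V, G.Adj x y → G.degree x + 2 * G.degree y + 4 ≤ Fintype.card V) :
    6 * G.edgeFinset.card + 4 * Fintype.card V ≤ Fintype.card V ^ 2 := by
  set n := Fintype.card V with hn
  have hsum := G.sum_degrees_eq_twice_card_edges
  set D := ∑ v, G.degree v with hD
  set Q := ∑ v, G.degree v ^ 2 with hQ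
  have hCS : D ^ 2 ≤ n * Q := by
    have := sq_sum_le_card_mul_sum_sq (s := (univ : Finset V)) (f := fun v => G.degree v)
    rw [card_univ] at this
    exact this
  have hswap : ∑ v, ∑ w ∈ G.neighborFinset v, G.degree w = Q := by
    have e1 : ∀ v, ∑ w ∈ G.neighborFinset v, G.degree w
        = ∑ w, if G.Adj v w then G.degree w else 0 := by
      intro v
      rw [← sum_filter]
      refine sum_congr ?_ (fun _ _ => rfl)
      ext w
      simp
    simp_rw [e1]
    rw [sum_comm]
    refine sum_congr rfl (fun w _ => ?_)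
    rw [← sum_filter, sum_const, smul_eq_mul, sq]
    congr 1
    rw [← card_neighborFinset_eq_degree]
    congr 1
    ext v
    simp [G.adj_comm]
  have hmain : 3 * Q + 4 * D ≤ n * D := by
    have e2 : ∑ v, ∑ w ∈ G.neighborFinset v, (G.degree v + 2 * G.degree w + 4)
        ≤ ∑ v, ∑ w ∈ G.neighborFinset v, n := by
      refine sum_le_sum (fun v _ => sum_le_sum (fun w hw => ?_))
      exact hd v w ((mem_neighborFinset G v w).1 hw)
    have e3 : ∑ v, ∑ w ∈ G.neighborFinset v, n = n * D := by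
      simp only [sum_const, card_neighborFinset_eq_degree, smul_eq_mul]
      rw [← sum_mul, mul_comm]
    have e4 : ∑ v, ∑ w ∈ G.neighborFinset v, (G.degree v + 2 * G.degree w + 4)
        = 3 * Q + 4 * D := by
      simp only [sum_add_distrib, ← mul_sum, sum_const, card_neighborFinset_eq_degree,
        smul_eq_mul]
      rw [hswap, ← sum_mul]
      have : ∑ v, G.degree v * G.degree v = Q := sum_congr rfl (fun v _ => (sq _).symm)
      rw [this]
      ring
    rw [e4, e3] at e2
    exact e2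
  rcases Nat.eq_zero_or_pos D with h0 | hpos
  · have : G.edgeFinset.card = 0 := by omega
    rw [this]
    nlinarith
  · have h6 : D * (3 * D + 4 * n) ≤ D * n ^ 2 := by
      calc D * (3 * D + 4 * n) = 3 * D ^ 2 + 4 * n * D := by ring
        _ ≤ 3 * (n * Q) + 4 * n * D := by gcongr
        _ = n * (3 * Q + 4 * D) := by ring
        _ ≤ n * (n * D) := Nat.mul_le_mul_left _ hmain
        _ = D * n ^ 2 := by ring
    have h7 := Nat.le_of_mul_le_mul_left h6 hpos
    have : 3 * D = 6 * G.edgeFinset.card := by omega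
    omega

end Pool.Agent.H58Ed
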